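import Pool.Agent.UL7.Stmts
import Pool.Agent.Helper59_UL6.GCY
import Pool.Agent.Helper90_UL3.ADJ
import Pool.Agent.Helper36_UL3.SEC

/-!
# Row GDS of squad UL7 (MP_c7c9bf_co): a body in the standard position is good
-/

set_option autoImplicit false

namespace Pool.Agent.UL7.H34

open MeasureTheory Set Pool.Agent.UL3 Pool.Agent.UL4 Pool.Agent.UL5 Pool.Agent.UL7
open scoped Pointwise

theorem int_lt (D : Set E3) (h : ∀ x ∈ D, x 2 ≤ 1) (x : E3) (hx : x ∈ interior D) : x 2 < 1 := by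
  have hc : Continuous fun t : ℝ => x + t • up 0 1 := by fun_prop
  have h0 : (fun t : ℝ => x + t • up 0 1) ⁻¹' interior D ∈ nhds (0 : ℝ) := by
    apply hc.continuousAt
    change interior D ∈ nhds (x + (0 : ℝ) • up 0 1)
    rw [zero_smul, add_zero]
    exact isOpen_interior.mem_nhds hx
  obtain ⟨ε, hε, hball⟩ := Metric.mem_nhds_iff.1 h0
  have h1 : (ε / 2 : ℝ) ∈ Metric.ball (0 : ℝ) ε := by
    rw [Metric.mem_ball, Real.dist_eq, sub_zero, abs_of_pos (by positivity)]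
    linarith
  have h2 := h _ (interior_subset (hball h1))
  have h3 : (x + (ε / 2) • up 0 1) 2 = x 2 + ε / 2 * 1 := rfl
  have h4 : (x + (ε / 2) • up 0 1) 2 ≤ 1 := h2
  rw [h3] at h4
  linarith

theorem dh_cpt (A : Set (ℝ × ℝ)) (h : IsCompact A) : IsCompact (dh A) := by
  have h1 : dh A = (fun q : (ℝ × ℝ) × (ℝ × ℝ) => (1 / 2 : ℝ) • (q.1 - q.2)) '' (A ×ˢ A) := by
    ext p
    constructor
    · rintro ⟨a, ha, b, hb, rfl⟩
      exact ⟨(a, b), ⟨ha, hb⟩, rfl⟩
    · rintro ⟨⟨a, b⟩, ⟨ha, hb⟩, rfl⟩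
      exact ⟨a, ha, b, hb, rfl⟩
  rw [h1]
  exact (h.prod h).image (by fun_prop)

theorem ar_le (M N : Set (ℝ × ℝ)) (r : ℝ) (hr : 0 < r) (hN : IsCompact N)
    (h : ∀ p ∈ M, ∃ q ∈ N, p = r • q) : ar M ≤ r ^ 2 * ar N := by
  have hsub : M ⊆ r • N := by
    intro p hp
    obtain ⟨q, hq, rfl⟩ := h p hp
    exact ⟨q, hq, rfl⟩
  have hfin : (volume : Measure (ℝ × ℝ)) (r • N) ≠ ⊤ := (hN.smul r).measure_ne_top
  have h1 : (volume : Measure (ℝ × ℝ)) (r • N) = ENNReal.ofReal (r ^ 2) * volume N := by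
    rw [Measure.addHaar_smul]
    have e : Module.finrank ℝ (ℝ × ℝ) = 2 := by simp
    rw [e, abs_of_pos (by positivity)]
  have h2 : ar (r • N) = r ^ 2 * ar N := by
    unfold ar
    rw [measureReal_def, h1, ENNReal.toReal_mul, ENNReal.toReal_ofReal (by positivity)]
    rfl
  rw [← h2]
  exact measureReal_mono hsub hfin

theorem gds (spv : SpvStmt) : GdsStmt := by
  intro D r hD hD1 hF hr hsec
  have pln : PlnStmt := Pool.Agent.UL3.H23.pln Pool.Agent.UL3.H77.paa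
    (Pool.Agent.UL3.H3.pab Pool.Agent.UL3.H77.paa) Pool.Agent.UL3.H75.pac
  obtain ⟨hPB, -, hint, -, -⟩ := Pool.Agent.UL3.H36.sec D hD
  obtain ⟨a, b, hadm, hab, har⟩ := pln (sec D 0) hPB
  refine ⟨![up a 0, up b 0, up 0 1], ?_, ?_, ?_⟩
  · rw [Pool.Agent.UL6.H59.dt_up a b hab]
    exact hab
  · refine Pool.Agent.UL3.H90.adj D _ hD ?_
    intro n hn hcon
    rw [Pool.Agent.UL6.H59.sum_up] at hcon
    have h1 : (n 2 : ℝ) < 1 := int_lt D hD1 _ hcon
    have h2 : -(n 2 : ℝ) < 1 :=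
      int_lt D hD1 _ (Pool.Agent.UL3.H90.neg_mem_interior hD hcon)
    have h7 : n 2 = 0 := by
      have h10 : n 2 < 1 := by exact_mod_cast h1
      have h11 : -1 < n 2 := by
        have : (-1 : ℝ) < n 2 := by linarith
        exact_mod_cast this
      omega
    rw [h7, Int.cast_zero] at hcon
    refine hadm (n 0) (n 1) ?_ (hint _ hcon)
    by_contra hcon'
    push Not at hcon'
    apply hn
    funext i
    fin_cases i
    · exact hcon'.1
    · exact hcon'.2
    · exact h7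
  · rw [Pool.Agent.UL6.H59.dt_up a b hab]
    have h1 : ar (sec D 0) ≤ r ^ 2 * ar (dh (sec D 1)) :=
      ar_le _ _ r hr (dh_cpt _ hF.cpt) hsec
    have h2 := spv D hD hF
    have h3 : 2 * Real.sqrt 3 * cr a b ≤ ar (sec D 0) := har
    have hs : 0 < Real.sqrt 3 := Real.sqrt_pos.mpr (by norm_num)
    have hr2 : 0 < r ^ 2 := by positivity
    have h4 : 2 * Real.sqrt 3 * cr a b ≤ r ^ 2 * (9 / 16 * V D) := by
      refine h3.trans (h1.trans ?_)
      apply mul_le_mul_of_nonneg_left _ hr2.le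
      linarith
    calc 32 * Real.sqrt 3 / (9 * r ^ 2) * cr a b = 16 / (9 * r ^ 2) * (2 * Real.sqrt 3 * cr a b) := by
          ring
      _ ≤ 16 / (9 * r ^ 2) * (r ^ 2 * (9 / 16 * V D)) :=
          mul_le_mul_of_nonneg_left h4 (by positivity)
      _ = V D := by
          field_simp

end Pool.Agent.UL7.H34
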